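import Mathlib
import Pool.Agent.H.MP_cda74c_nt.C

namespace Pool.Agent.Results.MP_cda74c_nt.Full

open Pool.Agent.H.MP_cda74c_nt

theorem result {I : Type*} [Infinite I] (a : I → ℤ) (m : I → ℕ) (hm : ∀ i, 2 ≤ m i)
    (hcov : ∀ n : ℤ, 0 < n → ∃! i, n ≡ a i [ZMOD (m i : ℤ)])
    (hinj : Function.Injective m) (hsum : HasSum (fun i => (1 : ℝ) / (m i : ℝ)) 1) :
    ∀ i, ∃ α β : ℕ, m i = 2 ^ α * 3 ^ β := by
  classical
  intro i0
  by_contra hne
  have h5 : 5 ≤ LP (m i0) := by
    by_contra hlt
    apply hne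
    have h0 : m i0 ≠ 0 := by have := hm i0; omega
    refine ⟨(m i0).factorization 2, (m i0).factorization 3, ?_⟩
    have sub : (m i0).factorization.support ⊆ {2, 3} := by
      intro p hp
      rw [Nat.support_factorization] at hp
      have pp := Nat.prime_of_mem_primeFactors hp
      have := le_LP _ _ (hm i0) pp (Nat.dvd_of_mem_primeFactors hp)
      have h4 : p ≠ 4 := by rintro rfl; norm_num at pp
      have := pp.two_le
      simp only [Finset.mem_insert, Finset.mem_singleton]; omega
    conv_lhs => rw [← Nat.prod_factorization_pow_eq_self h0]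
    rw [Finsupp.prod_of_support_subset _ sub _ (by simp)]
    simp
  obtain ⟨c, c0, hc⟩ := gap (ι := I) (m i0) (by have := hm i0; omega)
  let b : I → ℕ := fun i => (a i % (m i : ℤ)).toNat
  have hb : ∀ i (x : ℕ), x ≡ b i [MOD m i] → (x : ℤ) ≡ a i [ZMOD (m i : ℤ)] := by
    intro i x hx
    have h0 : (m i : ℤ) ≠ 0 := by have := hm i; omega
    have h1 : ((b i : ℕ) : ℤ) = a i % (m i : ℤ) := Int.toNat_of_nonneg (Int.emod_nonneg _ h0)
    have h2 := Int.natCast_modEq_iff.2 hx
    rw [h1] at h2
    exact h2.trans (Int.mod_modEq _ _)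
  have key : ∀ F : Finset I, ∑ i ∈ F, (1 : ℝ) / m i ≤ 1 - c := by
    intro F
    have hs : Sys (insert i0 F) b m (∏ i ∈ insert i0 F, m i) := by
      refine ⟨Finset.prod_pos (fun i _ => by have := hm i; omega),
        fun i hi => Finset.dvd_prod_of_mem _ hi, fun i _ => hm i, hinj.injOn, ?_⟩
      intro i _ j _ hij x hi hj
      have hi' : x + m i * m j ≡ b i [MOD m i] := by
        refine Nat.ModEq.trans ?_ hi
        simp [Nat.ModEq]
      have hj' : x + m i * m j ≡ b j [MOD m j] := by
        refine Nat.ModEq.trans ?_ hj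
        simp [Nat.ModEq]
      have pos : (0 : ℤ) < ((x + m i * m j : ℕ) : ℤ) := by
        have := Nat.mul_pos (show 0 < m i by have := hm i; omega)
          (show 0 < m j by have := hm j; omega)
        omega
      exact hij ((hcov _ pos).unique (hb _ _ hi') (hb _ _ hj'))
    refine le_trans ?_ (hc _ b m _ hs i0 (Finset.mem_insert_self _ _) rfl h5)
    exact Finset.sum_le_sum_of_subset_of_nonneg (Finset.subset_insert _ _)
      (fun _ _ _ => by positivity)
  have := hasSum_le_of_sum_le hsum key
  linarith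

end Pool.Agent.Results.MP_cda74c_nt.Full
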